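import Mathlib

set_option autoImplicit false

open Filter Topology

namespace Pool.Agent.Work.MP_fb65e7_an

open Classical in
/-- The state machine: `(S, Y, m)`. -/
noncomputable def st : ℕ → ℝ × ℝ × ℕ
  | 0 => (1, 1, 0)
  | n + 1 =>
    if (st n).1 ≤ (1 / 2) ^ (st n).2.2 * (st n).2.1 then
      ((st n).1 + ((st n).1 / (st n).2.1) ^ 2, (st n).2.1 + (st n).1 / (st n).2.1, (st n).2.2 + 1)
    else ((st n).1 + (1 / ((n : ℝ) + 1)) ^ 2, (st n).2.1 + 1 / ((n : ℝ) + 1), (st n).2.2)

/-- partial sums of squares -/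
noncomputable def S (n : ℕ) : ℝ := (st n).1

/-- partial sums -/
noncomputable def Y (n : ℕ) : ℝ := (st n).2.1

/-- counter -/
noncomputable def mm (n : ℕ) : ℕ := (st n).2.2

/-- the test for freeness of the next index -/
def cond (n : ℕ) : Prop := S n ≤ (1 / 2) ^ (mm n) * Y n

/-- the free indices -/
def Free : ℕ → Prop
  | 0 => True
  | n + 1 => cond n

open Classical in
/-- the special vector -/
noncomputable def yy : ℕ → ℝ
  | 0 => 1
  | n + 1 => if cond n then S n / Y n else 1 / ((n : ℝ) + 1)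

lemma st_succ (n : ℕ) : (cond n → S (n + 1) = S n + (S n / Y n) ^ 2 ∧ Y (n + 1) = Y n + S n / Y n ∧
    mm (n + 1) = mm n + 1) ∧ (¬ cond n → S (n + 1) = S n + (1 / ((n : ℝ) + 1)) ^ 2 ∧
    Y (n + 1) = Y n + 1 / ((n : ℝ) + 1) ∧ mm (n + 1) = mm n) := by
  constructor
  · intro h
    have h' : (st n).1 ≤ (1 / 2) ^ (st n).2.2 * (st n).2.1 := h
    simp only [S, Y, mm, st, if_pos h', and_self]
  · intro h
    have h' : ¬ (st n).1 ≤ (1 / 2) ^ (st n).2.2 * (st n).2.1 := h
    simp only [S, Y, mm, st, if_neg h', and_self]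

lemma S_succ (n : ℕ) : S (n + 1) = S n + yy (n + 1) ^ 2 := by
  by_cases h : cond n
  · rw [((st_succ n).1 h).1]; simp only [yy, if_pos h]
  · rw [((st_succ n).2 h).1]; simp only [yy, if_neg h]

lemma Y_succ (n : ℕ) : Y (n + 1) = Y n + yy (n + 1) := by
  by_cases h : cond n
  · rw [((st_succ n).1 h).2.1]; simp only [yy, if_pos h]
  · rw [((st_succ n).2 h).2.1]; simp only [yy, if_neg h]

lemma S_zero : S 0 = 1 := rfl
lemma Y_zero : Y 0 = 1 := rfl
lemma yy_zero : yy 0 = 1 := rfl

lemma SY_pos (n : ℕ) : 0 < S n ∧ 0 < Y n := by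
  induction n with
  | zero => exact ⟨one_pos, one_pos⟩
  | succ n ih =>
    obtain ⟨h1, h2⟩ := ih
    have h3 : 0 < yy (n + 1) := by
      by_cases h : cond n
      · simp only [yy, if_pos h]; positivity
      · simp only [yy, if_neg h]; positivity
    rw [S_succ, Y_succ]
    constructor <;> positivity

lemma S_pos (n : ℕ) : 0 < S n := (SY_pos n).1
lemma Y_pos (n : ℕ) : 0 < Y n := (SY_pos n).2

lemma yy_pos (n : ℕ) : 0 < yy n := by
  rcases n with _ | n
  · exact one_pos
  · have h1 := S_pos n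
    have h2 := Y_pos n
    by_cases h : cond n
    · simp only [yy, if_pos h]; positivity
    · simp only [yy, if_neg h]; positivity

lemma yy_free {n : ℕ} (h : Free (n + 1)) : yy (n + 1) = S n / Y n := by
  have h' : cond n := h
  simp only [yy, if_pos h']

lemma S_eq_sum (n : ℕ) : S n = ∑ i ∈ Finset.range (n + 1), yy i ^ 2 := by
  induction n with
  | zero => simp [S_zero, yy_zero]
  | succ n ih => rw [S_succ, Finset.sum_range_succ, ih]

lemma Y_eq_sum (n : ℕ) : Y n = ∑ i ∈ Finset.range (n + 1), yy i := by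
  induction n with
  | zero => simp [Y_zero, yy_zero]
  | succ n ih => rw [Y_succ, Finset.sum_range_succ, ih]

lemma S_le (n : ℕ) : S n ≤ 1 + ∑ i ∈ Finset.range n, (1 / ((i : ℝ) + 1)) ^ 2 +
    ∑ j ∈ Finset.range (mm n), ((1 : ℝ) / 4) ^ j := by
  induction n with
  | zero => simp [S_zero, mm, st]
  | succ n ih =>
    by_cases h : cond n
    · obtain ⟨h1, h2, h3⟩ := (st_succ n).1 h
      rw [h1, h3, Finset.sum_range_succ, Finset.sum_range_succ]
      have h4 : S n / Y n ≤ (1 / 2) ^ (mm n) := by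
        rw [div_le_iff₀ (Y_pos n)]; exact h
      have h5 : 0 ≤ S n / Y n := (div_pos (S_pos n) (Y_pos n)).le
      have h6 : (S n / Y n) ^ 2 ≤ (1 / 4) ^ (mm n) := by
        calc (S n / Y n) ^ 2 ≤ ((1 / 2) ^ (mm n)) ^ 2 := by gcongr
          _ = (1 / 4) ^ (mm n) := by
            rw [← pow_mul, mul_comm, pow_mul]; norm_num
      have h7 : 0 ≤ (1 / ((n : ℝ) + 1)) ^ 2 := by positivity
      linarith
    · obtain ⟨h1, h2, h3⟩ := (st_succ n).2 h
      rw [h1, h3, Finset.sum_range_succ]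
      linarith

lemma exists_bound : ∃ B : ℝ, 0 < B ∧ ∀ n, S n ≤ B := by
  have h1 : Summable (fun i : ℕ => (1 / ((i : ℝ) + 1)) ^ 2) := by
    have h2 : Summable (fun i : ℕ => 1 / ((i : ℝ)) ^ 2) :=
      Real.summable_one_div_nat_pow.mpr (by norm_num)
    have h3 := (summable_nat_add_iff 1).mpr h2
    refine h3.congr ?_
    intro i
    push_cast
    rw [div_pow, one_pow]
  have h2 : Summable (fun j : ℕ => ((1 : ℝ) / 4) ^ j) :=
    summable_geometric_of_lt_one (by norm_num) (by norm_num)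
  refine ⟨1 + ∑' i : ℕ, (1 / ((i : ℝ) + 1)) ^ 2 + ∑' j : ℕ, ((1 : ℝ) / 4) ^ j, ?_, ?_⟩
  · have h3 : 0 ≤ ∑' i : ℕ, (1 / ((i : ℝ) + 1)) ^ 2 := tsum_nonneg fun i => by positivity
    have h4 : 0 ≤ ∑' j : ℕ, ((1 : ℝ) / 4) ^ j := tsum_nonneg fun j => by positivity
    linarith
  · intro n
    have h3 := h1.sum_le_tsum (Finset.range n) (fun i _ => by positivity)
    have h4 := h2.sum_le_tsum (Finset.range (mm n)) (fun i _ => by positivity)
    have h5 := S_le n
    linarith

lemma summable_yy_sq : Summable (fun n => yy n ^ 2) := by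
  obtain ⟨B, _, hB⟩ := exists_bound
  apply summable_of_sum_range_le (c := B) (fun n => by positivity)
  intro n
  rcases n with _ | n
  · simp only [Finset.range_zero, Finset.sum_empty]
    exact (S_pos 0).le.trans (hB 0)
  · rw [← S_eq_sum]; exact hB n

lemma exists_free_gt (N : ℕ) : ∃ n, N < n ∧ Free n := by
  by_contra hcon
  push Not at hcon
  have hc : ∀ n, N ≤ n → ¬ cond n := fun n hn h => hcon (n + 1) (by omega) h
  have hm : ∀ k, mm (N + k) = mm N := by
    intro k
    induction k with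
    | zero => rfl
    | succ k ih =>
      rw [← add_assoc, ((st_succ (N + k)).2 (hc _ (by omega))).2.2, ih]
  have hY : ∀ k, Y (N + k) = Y N + ∑ i ∈ Finset.range k, 1 / (((N + i : ℕ) : ℝ) + 1) := by
    intro k
    induction k with
    | zero => simp
    | succ k ih =>
      rw [← add_assoc, ((st_succ (N + k)).2 (hc _ (by omega))).2.1, ih, Finset.sum_range_succ]
      ring
  have hYtop : Tendsto (fun k => Y (N + k)) atTop atTop := by
    have h1 : ¬ Summable (fun i : ℕ => 1 / (((N + i : ℕ) : ℝ) + 1)) := by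
      intro h
      have h2 : Summable (fun i : ℕ => 1 / (((i + (N + 1) : ℕ) : ℝ))) := by
        refine h.congr ?_
        intro i; push_cast; ring
      exact Real.not_summable_one_div_natCast ((summable_nat_add_iff (N + 1)).mp h2)
    have h2 : Tendsto (fun k => ∑ i ∈ Finset.range k, 1 / (((N + i : ℕ) : ℝ) + 1)) atTop atTop :=
      (not_summable_iff_tendsto_nat_atTop_of_nonneg (fun i => by positivity)).mp h1
    have h3 := tendsto_atTop_add_const_left atTop (Y N) h2
    refine h3.congr ?_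
    intro k; exact (hY k).symm
  obtain ⟨B, _, hB⟩ := exists_bound
  have h2 : (0 : ℝ) < (1 / 2) ^ (mm N) := by positivity
  obtain ⟨k, hk⟩ := (hYtop.eventually (eventually_ge_atTop (B / (1 / 2) ^ (mm N)))).exists
  apply hc (N + k) (by omega)
  show S (N + k) ≤ (1 / 2) ^ (mm (N + k)) * Y (N + k)
  rw [hm k]
  rw [div_le_iff₀ h2] at hk
  calc S (N + k) ≤ B := hB _
    _ ≤ _ := by rw [mul_comm]; exact hk

end Pool.Agent.Work.MP_fb65e7_an
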