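import Mathlib
import Pool.Agent.Work.MP_fb65e7_an.Seq

set_option autoImplicit false

open Filter Topology

namespace Pool.Agent.Work.MP_fb65e7_an

open Classical in
/-- the first free index after `k` -/
noncomputable def nxt (k : ℕ) : ℕ := Nat.find (exists_free_gt k)

lemma nxt_gt (k : ℕ) : k < nxt k := by
  classical
  exact (Nat.find_spec (exists_free_gt k)).1

lemma nxt_free (k : ℕ) : Free (nxt k) := by
  classical
  exact (Nat.find_spec (exists_free_gt k)).2

lemma not_free_lt {k n : ℕ} (h1 : k < n) (h2 : n < nxt k) : ¬ Free n := by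
  classical
  intro h
  exact Nat.find_min (exists_free_gt k) h2 ⟨h1, h⟩

/-- partial sums of the coordinates of the biorthogonal functional -/
noncomputable def GG (k n : ℕ) : ℝ := if n < k then 0 else if n < nxt k then Y n / Y k else 0

/-- coordinates of the biorthogonal functional -/
noncomputable def aa (k : ℕ) : ℕ → ℝ
  | 0 => GG k 0
  | n + 1 => GG k (n + 1) - GG k n

lemma GG_lt {k n : ℕ} (h : n < k) : GG k n = 0 := by simp [GG, h]

lemma GG_self (k : ℕ) : GG k k = 1 := by
  have h1 := nxt_gt k
  have h2 := (Y_pos k).ne'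
  simp [GG, h1, h2]

lemma GG_mid {k n : ℕ} (h1 : k ≤ n) (h2 : n < nxt k) : GG k n = Y n / Y k := by
  simp [GG, not_lt.mpr h1, h2]

lemma GG_ge {k n : ℕ} (h2 : nxt k ≤ n) : GG k n = 0 := by
  simp [GG, not_lt.mpr h2]

lemma aa_gt {k n : ℕ} (h : nxt k < n) : aa k n = 0 := by
  rcases n with _ | n
  · omega
  · simp only [aa]
    rw [GG_ge (by omega), GG_ge (by omega), sub_zero]

lemma sum_aa (k n : ℕ) : ∑ i ∈ Finset.range (n + 1), aa k i = GG k n := by
  induction n with
  | zero => simp [aa]
  | succ n ih => rw [Finset.sum_range_succ, ih]; simp [aa]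

/-- target coordinates of the ideal vectors -/
noncomputable def TT (k i : ℕ) : ℝ :=
  open Classical in
  if k < i then 0 else if i = k then 1 else if Free k then 1 else -(yy k / Y (k - 1))

variable {H : Type*} [NormedAddCommGroup H] [InnerProductSpace ℂ H]

/-- the partial sum vectors -/
noncomputable def ss (e : ℕ → H) (n : ℕ) : H := ∑ i ∈ Finset.range (n + 1), e i

/-- the ideal vectors -/
noncomputable def xx (e : ℕ → H) (k : ℕ) : H := ∑ i ∈ Finset.range (k + 1), ((TT k i : ℝ) : ℂ) • e i

/-- the biorthogonal vectors -/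
noncomputable def ph (e : ℕ → H) (k : ℕ) : H :=
  ∑ i ∈ Finset.range (nxt k + 1), ((aa k i : ℝ) : ℂ) • e i

lemma xx_free (e : ℕ → H) {k : ℕ} (hk : Free k) : xx e k = ss e k := by
  unfold xx ss
  apply Finset.sum_congr rfl
  intro i hi
  rw [Finset.mem_range] at hi
  have : TT k i = 1 := by
    simp only [TT]
    rw [if_neg (by omega)]
    split_ifs <;> rfl
  rw [this]; simp

lemma xx_nonfree (e : ℕ → H) {k : ℕ} (hk : ¬ Free (k + 1)) :
    xx e (k + 1) = e (k + 1) - ((yy (k + 1) / Y k : ℝ) : ℂ) • ss e k := by
  unfold xx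
  rw [Finset.sum_range_succ]
  have h1 : TT (k + 1) (k + 1) = 1 := by simp [TT]
  have h2 : ∑ i ∈ Finset.range (k + 1), ((TT (k + 1) i : ℝ) : ℂ) • e i =
      -(((yy (k + 1) / Y k : ℝ) : ℂ) • ss e k) := by
    unfold ss
    rw [Finset.smul_sum, ← Finset.sum_neg_distrib]
    apply Finset.sum_congr rfl
    intro i hi
    rw [Finset.mem_range] at hi
    have : TT (k + 1) i = -(yy (k + 1) / Y k) := by
      simp only [TT]
      rw [if_neg (by omega), if_neg (by omega), if_neg hk]
      simp
    rw [this]
    push_cast
    rw [neg_smul]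
  rw [h1, h2]
  simp only [Complex.ofReal_one, one_smul]
  abel

lemma inner_e_sum {e : ℕ → H} (he : Orthonormal ℂ e) (c : ℕ → ℂ) (s : Finset ℕ) (i : ℕ) :
    inner ℂ (e i) (∑ j ∈ s, c j • e j) = if i ∈ s then c i else 0 := by
  classical
  rw [inner_sum]
  simp only [inner_smul_right, orthonormal_iff_ite.mp he]
  simp

lemma inner_ph_e {e : ℕ → H} (he : Orthonormal ℂ e) (k i : ℕ) :
    inner ℂ (ph e k) (e i) = ((aa k i : ℝ) : ℂ) := by
  rw [← inner_conj_symm]
  unfold ph
  rw [inner_e_sum he]
  by_cases h : i ∈ Finset.range (nxt k + 1)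
  · rw [if_pos h, Complex.conj_ofReal]
  · rw [if_neg h, map_zero, aa_gt]
    · simp
    · rw [Finset.mem_range] at h; omega

lemma inner_ph_ss {e : ℕ → H} (he : Orthonormal ℂ e) (k n : ℕ) :
    inner ℂ (ph e k) (ss e n) = ((GG k n : ℝ) : ℂ) := by
  unfold ss
  rw [inner_sum]
  simp only [inner_ph_e he]
  rw [← sum_aa]
  push_cast
  rfl

lemma biorth {e : ℕ → H} (he : Orthonormal ℂ e) (k j : ℕ) :
    inner ℂ (ph e k) (xx e j) = if j = k then 1 else 0 := by
  by_cases hj : Free j
  · rw [xx_free e hj, inner_ph_ss he]
    rcases lt_trichotomy j k with h | h | h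
    · rw [GG_lt h, if_neg (by omega)]; simp
    · subst h; rw [GG_self]; simp
    · rw [if_neg (by omega)]
      have : nxt k ≤ j := by
        by_contra hcon
        push Not at hcon
        exact not_free_lt h hcon hj
      rw [GG_ge this]; simp
  · rcases j with _ | n
    · exact absurd trivial hj
    · rw [xx_nonfree e hj, inner_sub_right, inner_smul_right, inner_ph_e he, inner_ph_ss he]
      have hY := (Y_pos n).ne'
      have hYs : Y (n + 1) = Y n + yy (n + 1) := Y_succ n
      have key : aa k (n + 1) - yy (n + 1) / Y n * GG k n =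
          GG k (n + 1) - Y (n + 1) / Y n * GG k n := by
        simp only [aa]
        rw [hYs]
        field_simp
        ring
      have key2 : GG k (n + 1) - Y (n + 1) / Y n * GG k n = if n + 1 = k then 1 else 0 := by
        rcases lt_trichotomy (n + 1) k with h | h | h
        · rw [GG_lt h, GG_lt (by omega), if_neg (by omega)]; ring
        · rw [← h, GG_self, GG_lt (by omega), if_pos rfl]; ring
        · rw [if_neg (by omega)]
          rcases lt_trichotomy (n + 1) (nxt k) with h2 | h2 | h2
          · rw [GG_mid (by omega) h2, GG_mid (by omega) (by omega)]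
            have hk := (Y_pos k).ne'
            field_simp
            ring
          · exfalso
            apply hj
            rw [h2]
            exact nxt_free k
          · rw [GG_ge (by omega), GG_ge (by omega)]; ring
      rw [← key] at key2
      have h3 : ((aa k (n + 1) : ℝ) : ℂ) - ((yy (n + 1) / Y n : ℝ) : ℂ) * ((GG k n : ℝ) : ℂ) =
          ((aa k (n + 1) - yy (n + 1) / Y n * GG k n : ℝ) : ℂ) := by push_cast; rfl
      rw [h3, key2]
      split_ifs <;> simp

/-- the coefficients in the main identity -/
noncomputable def be (k : ℕ) : ℝ := yy k - S k / Y k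

lemma be_free {k : ℕ} (hk : Free k) : be k = 0 := by
  unfold be
  rcases k with _ | n
  · simp [yy_zero, S_zero, Y_zero]
  · have h1 := yy_free hk
    rw [S_succ, Y_succ, h1]
    have h2 := (Y_pos n).ne'
    have h3 := S_pos n
    have h4 := Y_pos n
    have h5 : Y n + S n / Y n ≠ 0 := by positivity
    have h6 : Y n * (Y n + S n / Y n) = Y n ^ 2 + S n := by field_simp
    have h7 : Y n ^ 2 + S n ≠ 0 := by positivity
    rw [sub_eq_zero, eq_div_iff h5]
    field_simp

open Classical in
/-- The main identity: the truncation of the special vector. -/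
lemma trunc_eq (e : ℕ → H) (n : ℕ) :
    ∑ i ∈ Finset.range (n + 1), ((yy i : ℝ) : ℂ) • e i =
      ((S n / Y n : ℝ) : ℂ) • ss e n +
      ∑ j ∈ (Finset.range (n + 1)).filter (fun j => ¬ Free j), ((be j : ℝ) : ℂ) • xx e j := by
  induction n with
  | zero =>
    have h1 : (Finset.range (0 + 1)).filter (fun j => ¬ Free j) = ∅ := by
      ext j
      simp only [Finset.mem_filter, Finset.mem_range, Finset.notMem_empty, iff_false, not_and,
        not_not]
      intro hj
      have : j = 0 := by omega
      subst this
      trivial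
    rw [h1]
    simp [ss, yy_zero, S_zero, Y_zero]
  | succ n ih =>
    rw [Finset.sum_range_succ, ih]
    have hY := (Y_pos n).ne'
    have hY' := (Y_pos (n + 1)).ne'
    have hss : ss e (n + 1) = ss e n + e (n + 1) := by
      unfold ss; rw [Finset.sum_range_succ]
    by_cases hf : Free (n + 1)
    · have h1 : (Finset.range (n + 1 + 1)).filter (fun j => ¬ Free j) =
          (Finset.range (n + 1)).filter (fun j => ¬ Free j) := by
        rw [Finset.range_add_one (n := n + 1), Finset.filter_insert, if_neg (by simpa using hf)]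
      rw [h1]
      have h2 := be_free hf
      have h3 : S (n + 1) / Y (n + 1) = yy (n + 1) := by
        unfold be at h2; linarith
      have h4 : S n / Y n = yy (n + 1) := (yy_free hf).symm
      rw [h3, h4, hss, smul_add]
      abel
    · have h1 : (Finset.range (n + 1 + 1)).filter (fun j => ¬ Free j) =
          insert (n + 1) ((Finset.range (n + 1)).filter (fun j => ¬ Free j)) := by
        rw [Finset.range_add_one (n := n + 1), Finset.filter_insert, if_pos hf]
      rw [h1, Finset.sum_insert (by simp), xx_nonfree e hf, hss]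
      have h2 : (be (n + 1) : ℝ) = yy (n + 1) - S (n + 1) / Y (n + 1) := rfl
      have h3 : S n / Y n = S (n + 1) / Y (n + 1) - be (n + 1) * (yy (n + 1) / Y n) := by
        rw [h2]
        have h4 := S_succ n
        have h5 := Y_succ n
        have h6 : Y n + yy (n + 1) ≠ 0 := by rw [← h5]; exact hY'
        rw [h4, h5]
        field_simp
        ring
      have h4 : ((yy (n + 1) : ℝ) : ℂ) =
          ((S (n + 1) / Y (n + 1) : ℝ) : ℂ) + ((be (n + 1) : ℝ) : ℂ) := by
        rw [h2]; push_cast; ring
      rw [h3, h4]
      simp only [Complex.ofReal_sub, Complex.ofReal_mul, sub_smul, add_smul, smul_add, smul_sub,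
        mul_smul]
      abel

end Pool.Agent.Work.MP_fb65e7_an
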