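import Mathlib
import Pool.Agent.Work.MP_fb65e7_an.Ideal

set_option autoImplicit false

open Filter Topology

namespace Pool.Agent.Work.MP_fb65e7_an

lemma exists_seq {α : Type} (C : ℕ → (ℕ → α) → α → Prop) (hC : ∀ k h, ∃ a, C k h a)
    (hloc : ∀ k h h' a, (∀ i < k, h i = h' i) → C k h a → C k h' a) (d : α) :
    ∃ f : ℕ → α, ∀ k, C k f (f k) := by
  classical
  set F : (n : ℕ) → ((m : ℕ) → m < n → α) → α := fun n ih =>
    (hC n (fun i => if h : i < n then ih i h else d)).choose with hF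
  set f : ℕ → α := WellFounded.fix (r := (· < ·)) Nat.lt_wfRel.wf F with hf
  refine ⟨f, fun k => ?_⟩
  have h1 : f k = F k (fun m _ => f m) := WellFounded.fix_eq _ _ _
  have h2 : C k (fun i => if h : i < k then f i else d) (f k) := by
    rw [h1]
    exact (hC k (fun i => if h : i < k then f i else d)).choose_spec
  apply hloc k _ _ _ _ h2
  intro i hi
  simp [hi]

lemma tend_frac (a b c d : ℂ) (hc : c ≠ 0) :
    Tendsto (fun m : ℕ => (a * (2 * (m : ℂ)) + b) / (c * (2 * (m : ℂ)) + d)) atTop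
      (𝓝 (a / c)) := by
  have h1 : Tendsto (fun m : ℕ => (a + b / 2 / (m : ℂ)) / (c + d / 2 / (m : ℂ))) atTop
      (𝓝 ((a + 0) / (c + 0))) := by
    apply Tendsto.div
    · exact tendsto_const_nhds.add (tendsto_const_div_atTop_nhds_zero_nat (b / 2))
    · exact tendsto_const_nhds.add (tendsto_const_div_atTop_nhds_zero_nat (d / 2))
    · simpa using hc
  rw [add_zero, add_zero] at h1
  refine h1.congr' ?_
  filter_upwards [eventually_ge_atTop 1] with m hm
  have hm0 : (m : ℂ) ≠ 0 := by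
    have : m ≠ 0 := by omega
    exact_mod_cast this
  have e1 : a * (2 * (m : ℂ)) + b = (2 * (m : ℂ)) * (a + b / 2 / (m : ℂ)) := by
    field_simp
  have e2 : c * (2 * (m : ℂ)) + d = (2 * (m : ℂ)) * (c + d / 2 / (m : ℂ)) := by
    field_simp
  rw [e1, e2, mul_div_mul_left _ _ (by simpa using hm0)]

lemma tend_frac_le (a b c d : ℂ) (hc : c ≠ 0) {L : ℂ} (hL : L = a / c) {ε : ℝ} (hε : 0 < ε) :
    ∀ᶠ m : ℕ in atTop, ‖(a * (2 * (m : ℂ)) + b) / (c * (2 * (m : ℂ)) + d) - L‖ ≤ ε := by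
  have h := tend_frac a b c d hc
  rw [← hL] at h
  have h2 := (Metric.tendsto_nhds.mp h) ε hε
  filter_upwards [h2] with m hm
  rw [dist_eq_norm] at hm
  exact hm.le

/-- the selection condition -/
def Cnd (dl : ℕ → ℕ → ℝ) (k : ℕ) (h : ℕ → ℤ × ℂ × ℂ) (a : ℤ × ℂ × ℂ) : Prop :=
  Even a.1 ∧ a.2.1.im = 1 ∧ a.2.2 ≠ 0 ∧ (∀ i < k, (h i).1 < a.1) ∧
  (∀ i < k, ‖a.2.2 / (a.2.1 - ((h i).1 : ℂ)) - ((TT k i : ℝ) : ℂ)‖ ≤ dl k i) ∧
  ‖a.2.2 / (a.2.1 - (a.1 : ℂ)) - 1‖ ≤ dl k k ∧
  (∀ j < k, ‖(h j).2.2 / ((h j).2.1 - (a.1 : ℂ))‖ ≤ dl j k)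

lemma step (dl : ℕ → ℕ → ℝ) (hdl : ∀ k i, 0 < dl k i) (k : ℕ) (h : ℕ → ℤ × ℂ × ℂ) :
    ∃ a, Cnd dl k h a := by
  -- conditions on the integer only
  have hA : ∀ᶠ m : ℕ in atTop, (∀ i ∈ Finset.range k, (h i).1 < 2 * (m : ℤ)) := by
    rw [eventually_all_finset]
    intro i _
    filter_upwards [eventually_gt_atTop (h i).1.toNat] with m hm
    omega
  have hB : ∀ᶠ m : ℕ in atTop, (∀ j ∈ Finset.range k,
      ‖(h j).2.2 / ((h j).2.1 - ((2 * (m : ℤ) : ℤ) : ℂ))‖ ≤ dl j k) := by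
    rw [eventually_all_finset]
    intro j _
    have h1 := tend_frac_le 0 (h j).2.2 (-1) (h j).2.1 (by norm_num) (L := 0) (by simp)
      (hdl j k)
    filter_upwards [h1] with m hm
    rw [sub_zero] at hm
    have e1 : (h j).2.2 / ((h j).2.1 - ((2 * (m : ℤ) : ℤ) : ℂ)) =
        (0 * (2 * (m : ℂ)) + (h j).2.2) / (-1 * (2 * (m : ℂ)) + (h j).2.1) := by
      push_cast
      congr 1
      · ring
      · ring
    rw [e1]
    exact hm
  by_cases hf : Free k
  · obtain ⟨m, hm1, hm2⟩ := (hA.and hB).exists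
    set n : ℤ := 2 * (m : ℤ) with hn
    have hC : ∀ᶠ M : ℕ in atTop, (∀ i ∈ Finset.range k,
        ‖(2 * (M : ℂ) + Complex.I) / (2 * (M : ℂ) + Complex.I - ((h i).1 : ℂ)) - 1‖ ≤ dl k i) := by
      rw [eventually_all_finset]
      intro i _
      have h1 := tend_frac_le 1 Complex.I 1 (Complex.I - ((h i).1 : ℂ)) (by norm_num) (L := 1)
        (by simp) (hdl k i)
      filter_upwards [h1] with M hM
      have e1 : (1 * (2 * (M : ℂ)) + Complex.I) /
          (1 * (2 * (M : ℂ)) + (Complex.I - ((h i).1 : ℂ))) =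
          (2 * (M : ℂ) + Complex.I) / (2 * (M : ℂ) + Complex.I - ((h i).1 : ℂ)) := by
        congr 1
        · ring
        · ring
      rw [e1] at hM
      exact hM
    have hD : ∀ᶠ M : ℕ in atTop,
        ‖(2 * (M : ℂ) + Complex.I) / (2 * (M : ℂ) + Complex.I - (n : ℂ)) - 1‖ ≤ dl k k := by
      have h1 := tend_frac_le 1 Complex.I 1 (Complex.I - (n : ℂ)) (by norm_num) (L := 1)
        (by simp) (hdl k k)
      filter_upwards [h1] with M hM
      have e1 : (1 * (2 * (M : ℂ)) + Complex.I) / (1 * (2 * (M : ℂ)) + (Complex.I - (n : ℂ))) =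
          (2 * (M : ℂ) + Complex.I) / (2 * (M : ℂ) + Complex.I - (n : ℂ)) := by
        congr 1
        · ring
        · ring
      rw [e1] at hM
      exact hM
    obtain ⟨M, hM1, hM2⟩ := (hC.and hD).exists
    refine ⟨(n, 2 * (M : ℂ) + Complex.I, 2 * (M : ℂ) + Complex.I), ?_, ?_, ?_, ?_, ?_, ?_, ?_⟩
    · exact ⟨m, by rw [hn]; ring⟩
    · simp
    · intro h0
      have := congrArg Complex.im h0
      simp at this
    · intro i hi
      exact hm1 i (Finset.mem_range.mpr hi)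
    · intro i hi
      have hT : TT k i = 1 := by
        simp only [TT]
        rw [if_neg (by omega)]
        split_ifs <;> rfl
      rw [hT, Complex.ofReal_one]
      exact hM1 i (Finset.mem_range.mpr hi)
    · exact hM2
    · intro j hj
      exact hm2 j (Finset.mem_range.mpr hj)
  · rcases k with _ | k
    · exact absurd trivial hf
    · set r : ℝ := Y k / Y (k + 1) with hr
      have hY := Y_pos k
      have hY' := Y_pos (k + 1)
      have hr0 : (r : ℂ) ≠ 0 := by
        have : r ≠ 0 := by rw [hr]; positivity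
        exact_mod_cast this
      have hE : ∀ᶠ m : ℕ in atTop, (∀ i ∈ Finset.range (k + 1),
          ‖(((r : ℂ) - 1) * (2 * (m : ℂ)) + Complex.I) /
            ((r : ℂ) * (2 * (m : ℂ)) + Complex.I - ((h i).1 : ℂ)) -
            ((-(yy (k + 1) / Y k) : ℝ) : ℂ)‖ ≤ dl (k + 1) i) := by
        rw [eventually_all_finset]
        intro i _
        have hL : ((-(yy (k + 1) / Y k) : ℝ) : ℂ) = ((r : ℂ) - 1) / (r : ℂ) := by
          have h2 : -(yy (k + 1) / Y k) = (r - 1) / r := by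
            rw [hr, Y_succ]
            have h3 : Y k + yy (k + 1) ≠ 0 := by rw [← Y_succ]; exact hY'.ne'
            field_simp
            ring
          rw [h2]; push_cast; rfl
        have h1 := tend_frac_le ((r : ℂ) - 1) Complex.I (r : ℂ) (Complex.I - ((h i).1 : ℂ)) hr0
          hL (hdl (k + 1) i)
        filter_upwards [h1] with m hm
        have e1 : (((r : ℂ) - 1) * (2 * (m : ℂ)) + Complex.I) /
            ((r : ℂ) * (2 * (m : ℂ)) + (Complex.I - ((h i).1 : ℂ))) =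
            (((r : ℂ) - 1) * (2 * (m : ℂ)) + Complex.I) /
            ((r : ℂ) * (2 * (m : ℂ)) + Complex.I - ((h i).1 : ℂ)) := by
          congr 1
          ring
        rw [e1] at hm
        exact hm
      obtain ⟨m, ⟨hm1, hm2⟩, hm3⟩ := ((hA.and hB).and hE).exists
      set n : ℤ := 2 * (m : ℤ) with hn
      have hnc : (n : ℂ) = 2 * (m : ℂ) := by rw [hn]; push_cast; rfl
      have him : (((r : ℂ) - 1) * (2 * (m : ℂ)) + Complex.I) ≠ 0 := by
        intro h0
        have := congrArg Complex.im h0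
        simp at this
      refine ⟨(n, (r : ℂ) * (2 * (m : ℂ)) + Complex.I,
        ((r : ℂ) - 1) * (2 * (m : ℂ)) + Complex.I), ?_, ?_, him, ?_, ?_, ?_, ?_⟩
      · exact ⟨m, by rw [hn]; ring⟩
      · simp
      · intro i hi
        exact hm1 i (Finset.mem_range.mpr hi)
      · intro i hi
        have hT : TT (k + 1) i = -(yy (k + 1) / Y k) := by
          simp only [TT]
          rw [if_neg (by omega), if_neg (by omega), if_neg hf]
          simp
        rw [hT]
        exact hm3 i (Finset.mem_range.mpr hi)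
      · have e1 : (r : ℂ) * (2 * (m : ℂ)) + Complex.I - (n : ℂ) =
            ((r : ℂ) - 1) * (2 * (m : ℂ)) + Complex.I := by rw [hnc]; ring
        show ‖(((r : ℂ) - 1) * (2 * (m : ℂ)) + Complex.I) /
          ((r : ℂ) * (2 * (m : ℂ)) + Complex.I - (n : ℂ)) - 1‖ ≤ _
        rw [e1, div_self him, sub_self, norm_zero]
        exact (hdl _ _).le
      · intro j hj
        exact hm2 j (Finset.mem_range.mpr hj)

lemma exists_choice (dl : ℕ → ℕ → ℝ) (hdl : ∀ k i, 0 < dl k i) :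
    ∃ f : ℕ → ℤ × ℂ × ℂ, ∀ k, Cnd dl k f (f k) := by
  apply exists_seq (Cnd dl) (step dl hdl) _ (0, 0, 0)
  rintro k h h' a hh ⟨h1, h2, h3, h4, h5, h6, h7⟩
  refine ⟨h1, h2, h3, ?_, ?_, h6, ?_⟩
  · intro i hi; rw [← hh i hi]; exact h4 i hi
  · intro i hi; rw [← hh i hi]; exact h5 i hi
  · intro i hi; rw [← hh i hi]; exact h7 i hi

end Pool.Agent.Work.MP_fb65e7_an
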