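import Mathlib

set_option autoImplicit false

open MeasureTheory

namespace Pool.Agent.Work.MP_fb65e7_an

/-- Lebesgue measure on `(-π, π)`. -/
noncomputable def muPi : Measure ℝ := volume.restrict (Set.Ioo (-Real.pi) Real.pi)

/-- The Hilbert space `L²(-π, π)`. -/
noncomputable abbrev L2Pi : Type := Lp ℂ 2 muPi

instance instIsFiniteMeasureMuPi : IsFiniteMeasure muPi := by
  unfold muPi
  infer_instance

lemma memLp_expo (lam : ℂ) :
    MemLp (fun t : ℝ => Complex.exp (Complex.I * lam * (t : ℂ))) 2 muPi := by
  apply MemLp.of_bound (C := Real.exp (|lam.im| * Real.pi))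
  · apply Continuous.aestronglyMeasurable
    fun_prop
  · unfold muPi
    filter_upwards [ae_restrict_mem measurableSet_Ioo] with t ht
    rw [Complex.norm_exp]
    apply Real.exp_le_exp.mpr
    have h1 : (Complex.I * lam * (t : ℂ)).re = -(lam.im * t) := by simp
    rw [h1]
    have h2 : |t| ≤ Real.pi := abs_le.mpr ⟨ht.1.le, ht.2.le⟩
    calc -(lam.im * t) ≤ |lam.im * t| := neg_le_abs _
      _ = |lam.im| * |t| := abs_mul _ _
      _ ≤ |lam.im| * Real.pi := by gcongr

/-- The function `e_λ(t) = exp(iλt)` as an element of `L²(-π, π)`. -/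
noncomputable def expo (lam : ℂ) : L2Pi := (memLp_expo lam).toLp _

section General

variable {H : Type*} [NormedAddCommGroup H] [InnerProductSpace ℂ H] {ι : Type*}

/-- The system is complete: its closed linear span is the whole space. -/
def IsCompleteSystem (x : ι → H) : Prop :=
  (Submodule.span ℂ (Set.range x)).topologicalClosure = ⊤

/-- The system is minimal: no element lies in the closed linear span of the others. -/
def IsMinimalSystem (x : ι → H) : Prop :=
  ∀ i, x i ∉ (Submodule.span ℂ (x '' {j | j ≠ i})).topologicalClosure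

/-- `y` is biorthogonal to `x`: `⟨x_m, y_n⟩ = δ_{mn}`. -/
def IsBiorthogonal (x y : ι → H) : Prop :=
  (∀ n, inner ℂ (y n) (x n) = 1) ∧ ∀ m n, m ≠ n → inner ℂ (y n) (x m) = 0

/-- The system is a strong M-basis (hereditarily complete): it is complete and minimal and, `y`
being its biorthogonal system, every `v` lies in the closed linear span of
`{⟨v, y_n⟩ x_n}`. -/
def IsStrongMBasis (x : ι → H) : Prop :=
  IsCompleteSystem x ∧ IsMinimalSystem x ∧ ∃ y : ι → H, IsBiorthogonal x y ∧
    ∀ v : H, v ∈ (Submodule.span ℂ (Set.range fun n => inner ℂ (y n) v • x n)).topologicalClosure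

end General

/-- `E(Λ)` has infinite defect: the orthogonal complement of its span is infinite-dimensional. -/
def HasInfiniteDefect (L : Set ℂ) : Prop :=
  ¬ FiniteDimensional ℂ ((Submodule.span ℂ (expo '' L))ᗮ : Submodule ℂ L2Pi)

/-- `E(Λ)` can be complemented to a strong M-basis by adding exponentials `e_μ`, `μ ∈ M`, with
`M` disjoint from `Λ`. -/
def CanBeComplemented (L : Set ℂ) : Prop :=
  ∃ M : Set ℂ, Disjoint M L ∧ IsStrongMBasis (fun z : ↥(L ∪ M) => expo z)

end Pool.Agent.Work.MP_fb65e7_an
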