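import Mathlib
import Pool.Agent.Work.MP_fb65e7_an.Defs

set_option autoImplicit false

open MeasureTheory Complex

namespace Pool.Agent.Work.MP_fb65e7_an

lemma muPi_eq : muPi = volume.restrict (Set.Ioc (-Real.pi) Real.pi) := by
  unfold muPi
  exact Measure.restrict_congr_set Ioo_ae_eq_Ioc

lemma integral_muPi (f : ℝ → ℂ) : ∫ t, f t ∂muPi = ∫ t in (-Real.pi)..Real.pi, f t := by
  rw [muPi_eq, intervalIntegral.integral_of_le (by linarith [Real.pi_pos])]

lemma integral_muPi_real (f : ℝ → ℝ) :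
    ∫ t, f t ∂muPi = ∫ t in (-Real.pi)..Real.pi, f t := by
  rw [muPi_eq, intervalIntegral.integral_of_le (by linarith [Real.pi_pos])]

lemma expo_coe (lam : ℂ) : (expo lam : ℝ → ℂ) =ᵐ[muPi] fun t : ℝ => exp (I * lam * (t : ℂ)) :=
  MemLp.coeFn_toLp (memLp_expo lam)

lemma conj_exp_int (m : ℤ) (t : ℝ) :
    (starRingEnd ℂ) (exp (I * (m : ℂ) * (t : ℂ))) = exp (-(I * (m : ℂ) * (t : ℂ))) := by
  rw [← exp_conj]
  congr 1
  simp

lemma inner_expo_eq (m : ℤ) (v : L2Pi) :
    inner ℂ (expo m) v = ∫ t in (-Real.pi)..Real.pi, exp (-(I * (m : ℂ) * (t : ℂ))) * v t := by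
  rw [L2.inner_def, ← integral_muPi]
  apply integral_congr_ae
  filter_upwards [expo_coe (m : ℂ)] with t ht
  rw [ht, RCLike.inner_apply, conj_exp_int, mul_comm]

lemma inner_expo_expo (m : ℤ) (lam : ℂ) (h : lam ≠ m) :
    inner ℂ (expo m) (expo lam) = 2 * sin (Real.pi * (lam - m)) / (lam - m) := by
  have hne : lam - m ≠ 0 := sub_ne_zero.mpr h
  have hc : I * (lam - m) ≠ 0 := mul_ne_zero I_ne_zero hne
  have h1 : inner ℂ (expo m) (expo lam) =
      ∫ t in (-Real.pi)..Real.pi, exp (I * (lam - m) * (t : ℂ)) := by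
    rw [L2.inner_def, ← integral_muPi]
    apply integral_congr_ae
    filter_upwards [expo_coe (m : ℂ), expo_coe lam] with t ht ht2
    rw [ht, ht2, RCLike.inner_apply, conj_exp_int, mul_comm, ← exp_add]
    congr 1
    ring
  rw [h1, integral_exp_mul_complex hc]
  have h2 : I * (lam - m) * ((Real.pi : ℝ) : ℂ) = (Real.pi * (lam - m)) * I := by ring
  have h3 : I * (lam - m) * ((-Real.pi : ℝ) : ℂ) = (-(Real.pi * (lam - m))) * I := by
    push_cast; ring
  rw [h2, h3, exp_mul_I, exp_mul_I, cos_neg, sin_neg]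
  field_simp
  ring

lemma inner_expo_self (m : ℤ) : inner ℂ (expo m) (expo m) = 2 * (Real.pi : ℂ) := by
  have h1 : inner ℂ (expo (m : ℂ)) (expo (m : ℂ)) = ∫ t in (-Real.pi)..Real.pi, (1 : ℂ) := by
    rw [L2.inner_def, ← integral_muPi]
    apply integral_congr_ae
    filter_upwards [expo_coe (m : ℂ)] with t ht
    rw [ht, RCLike.inner_apply, conj_exp_int, mul_comm, ← exp_add]
    rw [neg_add_cancel, exp_zero]
  rw [h1, intervalIntegral.integral_const]
  rw [Complex.real_smul]
  push_cast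
  ring

lemma inner_expo_int {m k : ℤ} (h : m ≠ k) : inner ℂ (expo m) (expo k) = 0 := by
  rw [inner_expo_expo m k (by exact_mod_cast h.symm)]
  have : ((Real.pi : ℝ) : ℂ) * ((k : ℂ) - (m : ℂ)) = ((k - m : ℤ) : ℂ) * Real.pi := by
    push_cast; ring
  rw [this, Complex.sin_int_mul_pi]
  simp

lemma inner_expo_even {m : ℤ} (hm : Even m) {lam : ℂ} (h : lam.im = 1) :
    inner ℂ (expo m) (expo lam) = 2 * sin (Real.pi * lam) / (lam - m) := by
  have hne : lam ≠ m := by
    intro h2
    rw [h2] at h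
    simp at h
  rw [inner_expo_expo m lam hne]
  congr 2
  obtain ⟨k, rfl⟩ := hm
  have : ((Real.pi : ℝ) : ℂ) * (lam - ((k + k : ℤ) : ℂ)) =
      Real.pi * lam - ((k : ℤ) : ℂ) * (2 * Real.pi) := by
    push_cast; ring
  rw [this, Complex.sin_sub_int_mul_two_pi]

lemma sin_ne_zero_of_im {lam : ℂ} (h : lam.im = 1) : 2 * sin (Real.pi * lam) ≠ 0 := by
  apply mul_ne_zero two_ne_zero
  intro h2
  rw [Complex.sin_eq_zero_iff] at h2
  obtain ⟨k, hk⟩ := h2
  have h3 := congrArg Complex.im hk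
  simp [h] at h3

/-- The normalised exponentials. -/
noncomputable def bas (m : ℤ) : L2Pi := ((1 / Real.sqrt (2 * Real.pi) : ℝ) : ℂ) • expo m

lemma bas_orthonormal : Orthonormal ℂ bas := by
  rw [orthonormal_iff_ite]
  intro m k
  unfold bas
  rw [inner_smul_left, inner_smul_right, Complex.conj_ofReal]
  by_cases h : m = k
  · subst h
    rw [if_pos rfl, inner_expo_self]
    have h1 : (0 : ℝ) < 2 * Real.pi := by positivity
    have h2 : Real.sqrt (2 * Real.pi) * Real.sqrt (2 * Real.pi) = 2 * Real.pi :=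
      Real.mul_self_sqrt h1.le
    have h3 : Real.sqrt (2 * Real.pi) ≠ 0 := by positivity
    have h4 : (1 / Real.sqrt (2 * Real.pi)) * ((1 / Real.sqrt (2 * Real.pi)) * (2 * Real.pi)) =
        1 := by
      nth_rewrite 3 [← h2]
      field_simp
    have h5 := congrArg (fun r : ℝ => (r : ℂ)) h4
    push_cast at h5
    push_cast
    exact h5
  · rw [if_neg h, inner_expo_int h]
    ring

lemma eq_zero_of_inner {v : L2Pi} (h : ∀ m : ℤ, inner ℂ (expo m) v = 0) : v = 0 := by
  have hab : -Real.pi < Real.pi := by linarith [Real.pi_pos]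
  have hL2 : MemLp (fun t => v t) 2 (volume.restrict (Set.Ioc (-Real.pi) Real.pi)) := by
    rw [← muPi_eq]
    exact Lp.memLp v
  have h1 := hasSum_sq_fourierCoeffOn hab hL2
  have h2 : ∀ m : ℤ, fourierCoeffOn hab (fun t => v t) m = 0 := by
    intro m
    rw [fourierCoeffOn_eq_integral]
    have h3 := h m
    rw [inner_expo_eq] at h3
    have h4 : ∫ x in (-Real.pi)..Real.pi,
        fourier (-m) (x : AddCircle (Real.pi - -Real.pi)) • v x = 0 := by
      rw [← h3]
      apply intervalIntegral.integral_congr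
      intro t _
      simp only
      rw [fourier_coe_apply, smul_eq_mul]
      congr 2
      have hpi : ((Real.pi : ℝ) : ℂ) ≠ 0 := by exact_mod_cast Real.pi_ne_zero
      push_cast
      field_simp
      ring
    rw [h4, smul_zero]
  simp only [h2, norm_zero, ne_eq, OfNat.ofNat_ne_zero, not_false_eq_true, zero_pow] at h1
  have h3 := h1.unique hasSum_zero
  have h4 : (Real.pi - -Real.pi)⁻¹ ≠ 0 := by
    have := Real.pi_pos
    positivity
  rw [smul_eq_zero] at h3
  have h5 : ∫ x in (-Real.pi)..Real.pi, ‖v x‖ ^ 2 = 0 := h3.resolve_left h4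
  have h6 : inner ℂ v v = ((∫ t, ‖v t‖ ^ 2 ∂muPi : ℝ) : ℂ) := by
    rw [L2.inner_def, ← integral_complex_ofReal]
    apply integral_congr_ae
    filter_upwards with t
    rw [inner_self_eq_norm_sq_to_K]
    push_cast
    rfl
  have h7 : ∫ t, ‖v t‖ ^ 2 ∂muPi = 0 := by
    rw [integral_muPi_real (fun t => ‖v t‖ ^ 2)]
    exact h5
  rw [h7, Complex.ofReal_zero] at h6
  exact inner_self_eq_zero.mp h6

/-- The Fourier basis of `L²(-π, π)`. -/
noncomputable def hb : HilbertBasis ℤ ℂ L2Pi :=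
  HilbertBasis.mkOfOrthogonalEqBot bas_orthonormal (by
    rw [Submodule.eq_bot_iff]
    intro v hv
    rw [Submodule.mem_orthogonal] at hv
    apply eq_zero_of_inner
    intro m
    have h1 := hv (bas m) (Submodule.subset_span ⟨m, rfl⟩)
    unfold bas at h1
    rw [inner_smul_left, Complex.conj_ofReal] at h1
    have h2 : ((1 / Real.sqrt (2 * Real.pi) : ℝ) : ℂ) ≠ 0 := by
      have : (0 : ℝ) < 1 / Real.sqrt (2 * Real.pi) := by positivity
      exact_mod_cast this.ne'
    exact (mul_eq_zero.mp h1).resolve_left h2)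

lemma hb_coe : ⇑hb = bas := HilbertBasis.coe_mkOfOrthogonalEqBot _ _

end Pool.Agent.Work.MP_fb65e7_an
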