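import Mathlib
import Pool.Agent.Work.MP_fb65e7_an.Ideal

set_option autoImplicit false

open Filter Topology

namespace Pool.Agent.Work.MP_fb65e7_an

variable {H : Type*} [NormedAddCommGroup H] [InnerProductSpace ℂ H]

/-- the special vector -/
noncomputable def yv (e : ℕ → H) : H := ∑' i, ((yy i : ℝ) : ℂ) • e i

lemma hasSum_yv [CompleteSpace H] {e : ℕ → H} (he : Orthonormal ℂ e) :
    HasSum (fun i => ((yy i : ℝ) : ℂ) • e i) (yv e) := by
  have h1 : Summable (fun i => (LinearIsometry.toSpanSingleton ℂ H (he.1 i)) ((yy i : ℝ) : ℂ)) := by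
    rw [he.orthogonalFamily.summable_iff_norm_sq_summable]
    refine summable_yy_sq.congr ?_
    intro i
    rw [Complex.norm_real, Real.norm_of_nonneg (yy_pos i).le]
  exact h1.hasSum

lemma inner_e_yv [CompleteSpace H] {e : ℕ → H} (he : Orthonormal ℂ e) (i : ℕ) :
    inner ℂ (e i) (yv e) = ((yy i : ℝ) : ℂ) := by
  have h1 : HasSum (fun j => inner ℂ (e i) (((yy j : ℝ) : ℂ) • e j)) (inner ℂ (e i) (yv e)) :=
    (hasSum_yv he).mapL (innerSL ℂ (e i))
  have h2 : HasSum (fun j => inner ℂ (e i) (((yy j : ℝ) : ℂ) • e j)) ((yy i : ℝ) : ℂ) := by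
    have h3 : (fun j => inner ℂ (e i) (((yy j : ℝ) : ℂ) • e j)) =
        fun j => if j = i then ((yy i : ℝ) : ℂ) else 0 := by
      funext j
      rw [inner_smul_right, orthonormal_iff_ite.mp he]
      by_cases h : j = i
      · subst h; simp
      · rw [if_neg h, if_neg (fun hh => h hh.symm), mul_zero]
    rw [h3]
    exact hasSum_ite_eq i _
  exact h1.unique h2

lemma inner_ss_yv [CompleteSpace H] {e : ℕ → H} (he : Orthonormal ℂ e) (n : ℕ) :
    inner ℂ (ss e n) (yv e) = ((Y n : ℝ) : ℂ) := by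
  unfold ss
  rw [sum_inner]
  simp only [inner_e_yv he]
  rw [Y_eq_sum]
  push_cast
  rfl

lemma yv_ne_zero [CompleteSpace H] {e : ℕ → H} (he : Orthonormal ℂ e) : yv e ≠ 0 := by
  intro h
  have h1 := inner_e_yv he 0
  rw [h, inner_zero_right, yy_zero] at h1
  simp at h1

lemma inner_xx_yv [CompleteSpace H] {e : ℕ → H} (he : Orthonormal ℂ e) {j : ℕ}
    (hj : ¬ Free j) : inner ℂ (xx e j) (yv e) = 0 := by
  rcases j with _ | n
  · exact absurd trivial hj
  · rw [xx_nonfree e hj, inner_sub_left, inner_smul_left, inner_e_yv he, inner_ss_yv he,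
      Complex.conj_ofReal]
    have h1 := (Y_pos n).ne'
    rw [← Complex.ofReal_mul, div_mul_cancel₀ _ h1, sub_self]

lemma yv_mem_closure [CompleteSpace H] {e : ℕ → H} (he : Orthonormal ℂ e) {F : Set ℕ}
    (hF : F.Infinite) (hFf : ∀ k ∈ F, Free k) (K : ℕ) :
    yv e ∈ (Submodule.span ℂ (xx e '' ({j | ¬ Free j} ∪ {k | k ∈ F ∧ K < k}))).topologicalClosure := by
  classical
  rw [← SetLike.mem_coe, Submodule.topologicalClosure_coe]
  have hfreq : ∃ᶠ n in atTop, n ∈ F ∧ K < n := by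
    have h1 : ∃ᶠ n in atTop, n ∈ F := Nat.frequently_atTop_iff_infinite.mpr hF
    exact h1.and_eventually (eventually_gt_atTop K)
  have htend : Tendsto (fun n => ∑ i ∈ Finset.range (n + 1), ((yy i : ℝ) : ℂ) • e i) atTop
      (𝓝 (yv e)) := (tendsto_add_atTop_iff_nat 1).mpr (hasSum_yv he).tendsto_sum_nat
  refine mem_closure_of_frequently_of_tendsto (hfreq.mono ?_) htend
  rintro n ⟨hn, hKn⟩
  rw [trunc_eq]
  apply Submodule.add_mem
  · apply Submodule.smul_mem
    rw [← xx_free e (hFf n hn)]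
    exact Submodule.subset_span ⟨n, Or.inr ⟨hn, hKn⟩, rfl⟩
  · apply Submodule.sum_mem
    intro j hj
    apply Submodule.smul_mem
    exact Submodule.subset_span ⟨j, Or.inl (Finset.mem_filter.mp hj).2, rfl⟩

end Pool.Agent.Work.MP_fb65e7_an
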