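import Mathlib
import Pool.Agent.Work.MP_fb65e7_an.YVec

set_option autoImplicit false

open Filter Topology

namespace Pool.Agent.Work.MP_fb65e7_an

variable {H : Type*} [NormedAddCommGroup H] [InnerProductSpace ℂ H] [CompleteSpace H]

lemma exists_perturb {e : ℕ → H} (he : Orthonormal ℂ e) {x' : ℕ → H} {d : ℕ → ℝ}
    (hd : ∀ k, ‖x' k - xx e k‖ * ‖ph e k‖ ≤ d k) (hds : Summable d) (hd1 : ∑' k, d k < 1) :
    ∃ A : H ≃L[ℂ] H, (∀ k, A (xx e k) = x' k) ∧
      ∀ v, HasSum (fun k => inner ℂ (ph e k) v • (x' k - xx e k)) (A v - v) := by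
  classical
  set R : ℕ → H →L[ℂ] H := fun k => InnerProductSpace.rankOne ℂ (x' k - xx e k) (ph e k) with hR
  have hRn : ∀ k, ‖R k‖ ≤ d k := by
    intro k
    simp only [hR]
    rw [InnerProductSpace.norm_rankOne]
    exact hd k
  have hRs : Summable R := Summable.of_norm_bounded hds hRn
  set B : H →L[ℂ] H := ∑' k, R k with hB
  have hBn : ‖B‖ < 1 := lt_of_le_of_lt (tsum_of_norm_bounded hds.hasSum hRn) hd1
  have hunit : IsUnit (1 + B) := by
    have h1 : ‖-B‖ < 1 := by rwa [norm_neg]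
    have h2 := isUnit_one_sub_of_norm_lt_one h1
    rwa [sub_neg_eq_add] at h2
  obtain ⟨u, hu⟩ := hunit
  have hBv : ∀ v, HasSum (fun k => inner ℂ (ph e k) v • (x' k - xx e k)) (B v) := by
    intro v
    have h1 : HasSum (fun k => R k v) (B v) :=
      hRs.hasSum.mapL (ContinuousLinearMap.apply ℂ H v)
    refine h1.congr_fun ?_
    intro k
    simp only [hR]
    rw [InnerProductSpace.rankOne_apply]
  refine ⟨ContinuousLinearEquiv.unitsEquiv ℂ H u, ?_, ?_⟩
  · intro k
    have h1 : (ContinuousLinearEquiv.unitsEquiv ℂ H u) (xx e k) = (1 + B) (xx e k) := by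
      rw [← hu]; rfl
    rw [h1]
    show xx e k + B (xx e k) = x' k
    have h2 : HasSum (fun j => inner ℂ (ph e j) (xx e k) • (x' j - xx e j)) (x' k - xx e k) := by
      have h3 : (fun j => inner ℂ (ph e j) (xx e k) • (x' j - xx e j)) =
          fun j => if j = k then x' k - xx e k else 0 := by
        funext j
        rw [biorth he]
        by_cases h : j = k
        · subst h; simp
        · rw [if_neg (fun hh => h hh.symm), if_neg h, zero_smul]
      rw [h3]
      exact hasSum_ite_eq k _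
    rw [(hBv (xx e k)).unique h2]
    abel
  · intro v
    have h1 : (ContinuousLinearEquiv.unitsEquiv ℂ H u) v = (1 + B) v := by
      rw [← hu]; rfl
    have h2 : (ContinuousLinearEquiv.unitsEquiv ℂ H u) v - v = B v := by
      rw [h1]
      show v + B v - v = B v
      abel
    rw [h2]
    exact hBv v

lemma map_closure {A : H →L[ℂ] H} {s : Set H} {v : H}
    (hv : v ∈ (Submodule.span ℂ s).topologicalClosure) :
    A v ∈ (Submodule.span ℂ (A '' s)).topologicalClosure := by
  rw [← SetLike.mem_coe, Submodule.topologicalClosure_coe] at hv ⊢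
  refine map_mem_closure A.continuous hv ?_
  intro w hw
  have h1 : A w ∈ (Submodule.span ℂ s).map (A : H →ₗ[ℂ] H) := Submodule.mem_map_of_mem hw
  rw [Submodule.map_span] at h1
  exact h1

lemma inner_closure_zero {s : Set H} {g v : H} (hg : ∀ w ∈ s, inner ℂ g w = 0)
    (hv : v ∈ (Submodule.span ℂ s).topologicalClosure) : inner ℂ g v = 0 := by
  have h1 : Submodule.span ℂ s ≤ LinearMap.ker (innerSL ℂ g : H →L[ℂ] ℂ).toLinearMap := by
    rw [Submodule.span_le]
    intro w hw
    exact hg w hw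
  have h2 := Submodule.topologicalClosure_minimal _ h1 (innerSL ℂ g : H →L[ℂ] ℂ).isClosed_ker hv
  exact h2

lemma yv_notMem {e : ℕ → H} (he : Orthonormal ℂ e) :
    yv e ∉ (Submodule.span ℂ (xx e '' {j | ¬ Free j})).topologicalClosure := by
  intro h
  have h1 : inner ℂ (yv e) (yv e) = (0 : ℂ) := by
    apply inner_closure_zero _ h
    rintro w ⟨j, hj, rfl⟩
    rw [← inner_conj_symm, inner_xx_yv he hj, map_zero]
  exact yv_ne_zero he (inner_self_eq_zero.mp h1)

lemma Ayv_mem {e : ℕ → H} (he : Orthonormal ℂ e) {x' : ℕ → H} {A : H ≃L[ℂ] H}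
    (hA : ∀ k, A (xx e k) = x' k) {F : Set ℕ}
    (hF : F.Infinite) (hFf : ∀ k ∈ F, Free k) (K : ℕ) :
    A (yv e) ∈ (Submodule.span ℂ (x' '' ({j | ¬ Free j} ∪ {k | k ∈ F ∧ K < k}))).topologicalClosure := by
  have h1 := map_closure (A := (A : H →L[ℂ] H)) (yv_mem_closure he hF hFf K)
  rw [Set.image_image] at h1
  have h2 : (fun x => (A : H →L[ℂ] H) (xx e x)) = x' := by
    funext k; exact hA k
  rw [h2] at h1
  exact h1

lemma Ayv_notMem {e : ℕ → H} (he : Orthonormal ℂ e) {x' : ℕ → H} {A : H ≃L[ℂ] H}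
    (hA : ∀ k, A (xx e k) = x' k) :
    A (yv e) ∉ (Submodule.span ℂ (x' '' {j | ¬ Free j})).topologicalClosure := by
  intro h
  have h1 := map_closure (A := (A.symm : H →L[ℂ] H)) h
  rw [Set.image_image] at h1
  have h2 : (fun x => (A.symm : H →L[ℂ] H) (x' x)) = xx e := by
    funext k
    rw [← hA k]
    exact A.symm_apply_apply _
  rw [h2] at h1
  have h3 : (A.symm : H →L[ℂ] H) (A (yv e)) = yv e := A.symm_apply_apply _
  rw [h3] at h1
  exact yv_notMem he h1

/-- transported biorthogonal vectors -/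
noncomputable def psi (e : ℕ → H) (A : H ≃L[ℂ] H) (k : ℕ) : H :=
  ContinuousLinearMap.adjoint (A.symm : H →L[ℂ] H) (ph e k)

lemma inner_psi {e : ℕ → H} {A : H ≃L[ℂ] H} (k : ℕ) (v : H) :
    inner ℂ (psi e A k) (A v) = inner ℂ (ph e k) v := by
  unfold psi
  rw [ContinuousLinearMap.adjoint_inner_left]
  congr 1
  exact A.symm_apply_apply _

lemma inner_psi_x {e : ℕ → H} (he : Orthonormal ℂ e) {x' : ℕ → H} {A : H ≃L[ℂ] H}
    (hA : ∀ k, A (xx e k) = x' k) (k j : ℕ) :
    inner ℂ (psi e A k) (x' j) = if j = k then 1 else 0 := by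
  rw [← hA j, inner_psi, biorth he]

lemma inner_psi_perp {e : ℕ → H} {x' : ℕ → H} {A : H ≃L[ℂ] H}
    (hAv : ∀ v, HasSum (fun k => inner ℂ (ph e k) v • (x' k - xx e k)) (A v - v))
    {w : H} (hw : ∀ i, inner ℂ (e i) w = 0) (k : ℕ) : inner ℂ (psi e A k) w = 0 := by
  have hph : ∀ j, inner ℂ (ph e j) w = 0 := by
    intro j
    unfold ph
    rw [sum_inner]
    apply Finset.sum_eq_zero
    intro i _
    rw [inner_smul_left, hw i, mul_zero]
  have h1 : A w - w = 0 := by
    have h2 := hAv w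
    simp only [hph, zero_smul] at h2
    exact h2.unique hasSum_zero
  have h2 : A w = w := sub_eq_zero.mp h1
  have h3 := inner_psi (e := e) (A := A) k w
  rw [h2, hph] at h3
  exact h3

end Pool.Agent.Work.MP_fb65e7_an
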