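import Mathlib
import Pool.Agent.Work.MP_fb65e7_an.Perturb
import Pool.Agent.Work.MP_fb65e7_an.Choice
import Pool.Agent.Work.MP_fb65e7_an.Fourier

set_option autoImplicit false

open MeasureTheory Filter Topology

namespace Pool.Agent.Work.MP_fb65e7_an

/-- numeric bound of the norm of the biorthogonal vectors -/
noncomputable def Ph (k : ℕ) : ℝ := ∑ i ∈ Finset.range (nxt k + 1), |aa k i|

lemma Ph_nonneg (k : ℕ) : 0 ≤ Ph k := Finset.sum_nonneg fun _ _ => abs_nonneg _

/-- tolerances -/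
noncomputable def dl (k i : ℕ) : ℝ := (1 / 2) ^ (i + 1) * ((1 / 2) ^ (k + 2) / (Ph k + 1))

lemma dl_pos (k i : ℕ) : 0 < dl k i := by
  have := Ph_nonneg k
  unfold dl
  positivity

lemma hasSum_dl (k : ℕ) : HasSum (dl k) ((1 / 2) ^ (k + 2) / (Ph k + 1)) := by
  have h1 : HasSum (fun i : ℕ => ((1 : ℝ) / 2) ^ (i + 1)) 1 := by
    have h2 := (hasSum_geometric_of_lt_one (r := (1 : ℝ) / 2) (by norm_num) (by norm_num)).mul_left
      (1 / 2)
    have h3 : (fun i : ℕ => ((1 : ℝ) / 2) ^ (i + 1)) = fun i => 1 / 2 * (1 / 2) ^ i := by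
      funext i; rw [pow_succ]; ring
    have h4 : (1 : ℝ) / 2 * (1 - 1 / 2)⁻¹ = 1 := by norm_num
    rw [h4] at h2
    rw [h3]
    exact h2
  have h2 := h1.mul_right ((1 / 2) ^ (k + 2) / (Ph k + 1))
  rw [one_mul] at h2
  exact h2

lemma norm_ph_le {H : Type*} [NormedAddCommGroup H] [InnerProductSpace ℂ H] {e : ℕ → H}
    (he : Orthonormal ℂ e) (k : ℕ) : ‖ph e k‖ ≤ Ph k := by
  unfold ph Ph
  refine (norm_sum_le _ _).trans (le_of_eq ?_)
  apply Finset.sum_congr rfl
  intro i _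
  rw [norm_smul, he.1 i, mul_one, Complex.norm_real, Real.norm_eq_abs]

lemma inner_e_xx {H : Type*} [NormedAddCommGroup H] [InnerProductSpace ℂ H] {e : ℕ → H}
    (he : Orthonormal ℂ e) (k i : ℕ) : inner ℂ (e i) (xx e k) = ((TT k i : ℝ) : ℂ) := by
  unfold xx
  rw [inner_e_sum he]
  by_cases h : i ∈ Finset.range (k + 1)
  · rw [if_pos h]
  · rw [if_neg h]
    rw [Finset.mem_range] at h
    have : TT k i = 0 := by
      simp only [TT]
      rw [if_pos (by omega)]
    rw [this, Complex.ofReal_zero]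

/-- the closed span of the unused integer exponentials -/
noncomputable def H0 (n : ℕ → ℤ) : Submodule ℂ L2Pi :=
  (Submodule.span ℂ (bas '' (Set.range n)ᶜ)).topologicalClosure

instance instCompleteH0 (n : ℕ → ℤ) : CompleteSpace (H0 n) :=
  (Submodule.isClosed_topologicalClosure _).completeSpace_coe

/-- the projection onto the orthogonal complement -/
noncomputable def PP (n : ℕ → ℤ) : L2Pi →L[ℂ] L2Pi :=
  ContinuousLinearMap.id ℂ L2Pi - (H0 n).starProjection

lemma PP_apply (n : ℕ → ℤ) (v : L2Pi) : PP n v = v - (H0 n).starProjection v := rfl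

lemma bas_mem_H0 {n : ℕ → ℤ} {m : ℤ} (hm : m ∉ Set.range n) : bas m ∈ H0 n :=
  Submodule.le_topologicalClosure _ (Submodule.subset_span ⟨m, hm, rfl⟩)

lemma inner_bas_H0 {n : ℕ → ℤ} (i : ℕ) {w : L2Pi} (hw : w ∈ H0 n) :
    inner ℂ (bas (n i)) w = 0 := by
  apply inner_closure_zero _ hw
  rintro w ⟨m, hm, rfl⟩
  rw [orthonormal_iff_ite.mp bas_orthonormal, if_neg]
  intro h
  exact hm ⟨i, h⟩

lemma inner_bas_PP {n : ℕ → ℤ} (i : ℕ) (v : L2Pi) :
    inner ℂ (bas (n i)) (PP n v) = inner ℂ (bas (n i)) v := by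
  rw [PP_apply, inner_sub_right, inner_bas_H0 i (Submodule.starProjection_apply_mem _ _), sub_zero]

lemma inner_bas_PP_zero {n : ℕ → ℤ} {m : ℤ} (hm : m ∉ Set.range n) (v : L2Pi) :
    inner ℂ (bas m) (PP n v) = 0 := by
  have h1 : v - (H0 n).starProjection v ∈ (H0 n)ᗮ := Submodule.sub_starProjection_mem_orthogonal v
  rw [Submodule.mem_orthogonal] at h1
  exact h1 _ (bas_mem_H0 hm)

lemma PP_of_mem {n : ℕ → ℤ} {v : L2Pi} (hv : v ∈ H0 n) : PP n v = 0 := by
  rw [PP_apply, Submodule.starProjection_eq_self_iff.mpr hv, sub_self]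

lemma PP_of_perp {n : ℕ → ℤ} {v : L2Pi} (hv : ∀ m ∉ Set.range n, inner ℂ (bas m) v = 0) :
    PP n v = v := by
  have h1 : v ∈ (H0 n)ᗮ := by
    rw [Submodule.mem_orthogonal]
    intro u hu
    rw [← inner_conj_symm]
    have h2 : inner ℂ v u = 0 := by
      apply inner_closure_zero _ hu
      rintro w ⟨m, hm, rfl⟩
      rw [← inner_conj_symm, hv m hm, map_zero]
    rw [h2, map_zero]
  have h2 : (H0 n).starProjection v = 0 := by
    rw [Submodule.starProjection_apply_eq_zero_iff]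
    exact h1
  rw [PP_apply, h2, sub_zero]

/-- Norm bound from coordinates. -/
lemma norm_le_of_coords {n : ℕ → ℤ} (hn : Function.Injective n) {z : L2Pi}
    (hz : ∀ m ∉ Set.range n, inner ℂ (bas m) z = 0) {c : ℕ → ℝ} {C : ℝ} (hc : HasSum c C)
    (hzc : ∀ i, ‖inner ℂ (bas (n i)) z‖ ≤ c i) : ‖z‖ ≤ C := by
  have h1 := hb.hasSum_repr z
  have h2 : HasSum ((fun m => hb.repr z m • hb m) ∘ n) z := by
    rw [hn.hasSum_iff]
    · exact h1
    · intro m hm
      rw [hb.repr_apply_apply, hb_coe, hz m hm, zero_smul]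
  apply h2.norm_le_of_bounded hc
  intro i
  simp only [Function.comp_apply]
  rw [norm_smul, hb.repr_apply_apply, hb_coe, bas_orthonormal.1, mul_one]
  exact hzc i

lemma exists_odd_even : ∃ F G : Set ℕ, F.Infinite ∧ G.Infinite ∧ Disjoint F G ∧
    (∀ k ∈ F, Free k) ∧ (∀ k ∈ G, Free k) ∧ ∀ k, Free k → k ∈ F ∨ k ∈ G := by
  classical
  have hinf : {n | Free n}.Infinite := by
    rw [← Nat.frequently_atTop_iff_infinite, frequently_atTop]
    intro N
    obtain ⟨n, h1, h2⟩ := exists_free_gt N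
    exact ⟨n, h1.le, h2⟩
  have hmono : StrictMono (Nat.nth Free) := Nat.nth_strictMono hinf
  refine ⟨Set.range (fun i => Nat.nth Free (2 * i)), Set.range (fun i => Nat.nth Free (2 * i + 1)),
    ?_, ?_, ?_, ?_, ?_, ?_⟩
  · apply Set.infinite_range_of_injective
    intro i j h
    have := hmono.injective h
    omega
  · apply Set.infinite_range_of_injective
    intro i j h
    have := hmono.injective h
    omega
  · rw [Set.disjoint_left]
    rintro k ⟨i, rfl⟩ ⟨j, h⟩
    have := hmono.injective h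
    omega
  · rintro k ⟨i, rfl⟩
    exact Nat.nth_mem_of_infinite hinf _
  · rintro k ⟨i, rfl⟩
    exact Nat.nth_mem_of_infinite hinf _
  · intro k hk
    have h1 := Nat.nth_count hk
    rcases Nat.even_or_odd' (Nat.count Free k) with ⟨c, hc | hc⟩
    · left; exact ⟨c, by simp only; rw [← hc]; exact h1⟩
    · right; exact ⟨c, by simp only; rw [← hc]; exact h1⟩

end Pool.Agent.Work.MP_fb65e7_an
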