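import Mathlib
import Pool.Agent.Work.MP_fb65e7_an.Main

set_option autoImplicit false

open MeasureTheory Filter Topology

namespace Pool.Agent.Work.MP_fb65e7_an

/-- The data of the construction. -/
structure Data where
  n : ℕ → ℤ
  lam : ℕ → ℂ
  kap : ℕ → ℂ
  A : L2Pi ≃L[ℂ] L2Pi
  ninj : Function.Injective n
  lam_im : ∀ k, (lam k).im = 1
  kap_ne : ∀ k, kap k ≠ 0
  hA : ∀ k, A (xx (fun i => bas (n i)) k) = kap k • PP n (expo (lam k))
  hAv : ∀ v, HasSum (fun k => inner ℂ (ph (fun i => bas (n i)) k) v •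
    (kap k • PP n (expo (lam k)) - xx (fun i => bas (n i)) k)) (A v - v)

lemma orth_comp {n : ℕ → ℤ} (hn : Function.Injective n) :
    Orthonormal ℂ (fun i => bas (n i)) := bas_orthonormal.comp n hn

lemma inner_bas_xx_zero {n : ℕ → ℤ} {m : ℤ} (hm : m ∉ Set.range n) (k : ℕ) :
    inner ℂ (bas m) (xx (fun i => bas (n i)) k) = 0 := by
  unfold xx
  rw [inner_sum]
  apply Finset.sum_eq_zero
  intro i _
  rw [inner_smul_right, orthonormal_iff_ite.mp bas_orthonormal, if_neg, mul_zero]
  intro h
  exact hm ⟨i, h.symm⟩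

lemma exists_data : Nonempty Data := by
  obtain ⟨f, hf⟩ := exists_choice dl dl_pos
  set n : ℕ → ℤ := fun k => (f k).1 with hn
  set lam : ℕ → ℂ := fun k => (f k).2.1 with hlam
  set rho : ℕ → ℂ := fun k => (f k).2.2 with hrho
  have hmono : StrictMono n := by
    apply strictMono_nat_of_lt_succ
    intro k
    exact (hf (k + 1)).2.2.2.1 k (Nat.lt_succ_self k)
  have hninj := hmono.injective
  have heven : ∀ k, Even (n k) := fun k => (hf k).1
  have him : ∀ k, (lam k).im = 1 := fun k => (hf k).2.1
  have hrne : ∀ k, rho k ≠ 0 := fun k => (hf k).2.2.1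
  have he := orth_comp hninj
  set c : ℂ := ((1 / Real.sqrt (2 * Real.pi) : ℝ) : ℂ) with hc
  have hc0 : c ≠ 0 := by
    have : (0 : ℝ) < 1 / Real.sqrt (2 * Real.pi) := by positivity
    rw [hc]
    exact_mod_cast this.ne'
  set C : ℕ → ℂ := fun k => 2 * Complex.sin (Real.pi * lam k) with hC
  have hC0 : ∀ k, C k ≠ 0 := fun k => sin_ne_zero_of_im (him k)
  set kap : ℕ → ℂ := fun k => rho k / (c * C k) with hkap
  have hkne : ∀ k, kap k ≠ 0 := fun k => div_ne_zero (hrne k) (mul_ne_zero hc0 (hC0 k))
  set x' : ℕ → L2Pi := fun k => kap k • PP n (expo (lam k)) with hx'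
  have hcoord : ∀ k i, inner ℂ (bas (n i)) (x' k) = rho k / (lam k - (n i : ℂ)) := by
    intro k i
    simp only [hx']
    rw [inner_smul_right, inner_bas_PP]
    unfold bas
    rw [inner_smul_left, Complex.conj_ofReal, inner_expo_even (heven i) (him k)]
    simp only [hkap]
    have h1 := hC0 k
    have hne : lam k - (n i : ℂ) ≠ 0 := by
      intro h2
      have h3 := congrArg Complex.im h2
      simp [him k] at h3
    show rho k / (c * C k) * (c * (C k / (lam k - (n i : ℂ)))) = _
    field_simp
  have hnorm : ∀ k, ‖x' k - xx (fun i => bas (n i)) k‖ ≤ (1 / 2) ^ (k + 2) / (Ph k + 1) := by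
    intro k
    apply norm_le_of_coords hninj _ (hasSum_dl k)
    · intro i
      rw [inner_sub_right, hcoord, inner_e_xx he]
      rcases lt_trichotomy i k with h | h | h
      · exact (hf k).2.2.2.2.1 i h
      · subst h
        have h1 : TT i i = 1 := by simp [TT]
        rw [h1, Complex.ofReal_one]
        exact (hf i).2.2.2.2.2.1
      · have h1 : TT k i = 0 := by
          simp only [TT]
          rw [if_pos h]
        rw [h1, Complex.ofReal_zero, sub_zero]
        exact (hf i).2.2.2.2.2.2 k h
    · intro m hm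
      rw [inner_sub_right, inner_bas_xx_zero hm, sub_zero]
      simp only [hx']
      rw [inner_smul_right, inner_bas_PP_zero hm, mul_zero]
  obtain ⟨A, hA, hAv⟩ := exists_perturb he (x' := x') (d := fun k => (1 / 2) ^ (k + 2))
    (by
      intro k
      have h1 := norm_ph_le he k
      have h2 := Ph_nonneg k
      have h3 := hnorm k
      calc ‖x' k - xx (fun i => bas (n i)) k‖ * ‖ph (fun i => bas (n i)) k‖
          ≤ ((1 / 2) ^ (k + 2) / (Ph k + 1)) * Ph k := by gcongr
        _ ≤ (1 / 2) ^ (k + 2) := by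
          rw [div_mul_eq_mul_div, div_le_iff₀ (by linarith)]
          have : (0 : ℝ) < (1 / 2) ^ (k + 2) := by positivity
          nlinarith)
    (by
      have h1 := (summable_nat_add_iff 2).mpr
        (summable_geometric_of_lt_one (r := (1 : ℝ) / 2) (by norm_num) (by norm_num))
      exact h1)
    (by
      have h1 : HasSum (fun k : ℕ => ((1 : ℝ) / 2) ^ (k + 2)) (1 / 2) := by
        have h2 := (hasSum_geometric_of_lt_one (r := (1 : ℝ) / 2) (by norm_num)
          (by norm_num)).mul_left (1 / 4)
        have h3 : (fun i : ℕ => ((1 : ℝ) / 2) ^ (i + 2)) = fun i => 1 / 4 * (1 / 2) ^ i := by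
          funext i; rw [pow_add]; ring
        have h4 : (1 : ℝ) / 4 * (1 - 1 / 2)⁻¹ = 1 / 2 := by norm_num
        rw [h4] at h2
        rw [h3]
        exact h2
      rw [h1.tsum_eq]
      norm_num)
  exact ⟨⟨n, lam, kap, A, hninj, him, hkne, hA, hAv⟩⟩

namespace Data

variable (D : Data)

/-- the basis vectors used -/
noncomputable def e (i : ℕ) : L2Pi := bas (D.n i)

/-- the perturbed vectors -/
noncomputable def x' (k : ℕ) : L2Pi := D.kap k • PP D.n (expo (D.lam k))

lemma he : Orthonormal ℂ D.e := orth_comp D.ninj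

lemma hA' (k : ℕ) : D.A (xx D.e k) = D.x' k := D.hA k

lemma hAv' (v : L2Pi) :
    HasSum (fun k => inner ℂ (ph D.e k) v • (D.x' k - xx D.e k)) (D.A v - v) := D.hAv v

/-- the integer part of `Λ` -/
def Zpart : Set ℂ := {z | ∃ m : ℤ, m ∉ Set.range D.n ∧ z = m}

/-- a family of points -/
def pts (K : Set ℕ) : Set ℂ := D.Zpart ∪ D.lam '' K

lemma expo_Zpart {m : ℤ} (hm : m ∉ Set.range D.n) {K : Set ℕ} :
    expo (m : ℂ) ∈ Submodule.span ℂ (expo '' D.pts K) :=
  Submodule.subset_span ⟨m, Or.inl ⟨m, hm, rfl⟩, rfl⟩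

lemma H0_le (K : Set ℕ) : H0 D.n ≤ (Submodule.span ℂ (expo '' D.pts K)).topologicalClosure := by
  apply Submodule.topologicalClosure_mono
  rw [Submodule.span_le]
  rintro w ⟨m, hm, rfl⟩
  exact Submodule.smul_mem _ _ (D.expo_Zpart hm)

lemma x'_mem {K : Set ℕ} {k : ℕ} (hk : k ∈ K) :
    D.x' k ∈ (Submodule.span ℂ (expo '' D.pts K)).topologicalClosure := by
  unfold x'
  apply Submodule.smul_mem
  rw [PP_apply]
  apply Submodule.sub_mem
  · exact Submodule.le_topologicalClosure _ (Submodule.subset_span ⟨_, Or.inr ⟨k, hk, rfl⟩, rfl⟩)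
  · exact D.H0_le K (Submodule.starProjection_apply_mem _ _)

lemma closure_x'_le {K : Set ℕ} :
    (Submodule.span ℂ (D.x' '' K)).topologicalClosure ≤
      (Submodule.span ℂ (expo '' D.pts K)).topologicalClosure := by
  apply Submodule.topologicalClosure_minimal _ _ (Submodule.isClosed_topologicalClosure _)
  rw [Submodule.span_le]
  rintro w ⟨k, hk, rfl⟩
  exact D.x'_mem hk

lemma inner_bas_yv {m : ℤ} (hm : m ∉ Set.range D.n) : inner ℂ (bas m) (yv D.e) = 0 := by
  have h1 : HasSum (fun j => inner ℂ (bas m) (((yy j : ℝ) : ℂ) • D.e j))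
      (inner ℂ (bas m) (yv D.e)) := (hasSum_yv D.he).mapL (innerSL ℂ (bas m))
  have h2 : (fun j => inner ℂ (bas m) (((yy j : ℝ) : ℂ) • D.e j)) = fun _ => 0 := by
    funext j
    rw [inner_smul_right]
    unfold e
    rw [orthonormal_iff_ite.mp bas_orthonormal, if_neg, mul_zero]
    intro h
    exact hm ⟨j, h.symm⟩
  rw [h2] at h1
  exact h1.unique hasSum_zero

lemma inner_bas_x' {m : ℤ} (hm : m ∉ Set.range D.n) (k : ℕ) : inner ℂ (bas m) (D.x' k) = 0 := by
  unfold x'
  rw [inner_smul_right, inner_bas_PP_zero hm, mul_zero]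

lemma inner_bas_Ayv {m : ℤ} (hm : m ∉ Set.range D.n) : inner ℂ (bas m) (D.A (yv D.e)) = 0 := by
  have h1 : HasSum (fun k => inner ℂ (bas m)
      (inner ℂ (ph D.e k) (yv D.e) • (D.x' k - xx D.e k)))
      (inner ℂ (bas m) (D.A (yv D.e) - yv D.e)) := (D.hAv' (yv D.e)).mapL (innerSL ℂ (bas m))
  have h2 : (fun k => inner ℂ (bas m)
      (inner ℂ (ph D.e k) (yv D.e) • (D.x' k - xx D.e k))) = fun _ => 0 := by
    funext k
    rw [inner_smul_right, inner_sub_right, D.inner_bas_x' hm]
    have h3 : inner ℂ (bas m) (xx D.e k) = 0 := inner_bas_xx_zero hm k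
    rw [h3, sub_zero, mul_zero]
  rw [h2] at h1
  have h3 := h1.unique hasSum_zero
  rw [inner_sub_right, D.inner_bas_yv hm, sub_zero] at h3
  exact h3

lemma Ayv_notMem' :
    D.A (yv D.e) ∉ (Submodule.span ℂ (expo '' D.pts {j | ¬ Free j})).topologicalClosure := by
  intro h
  have h1 := map_closure (A := PP D.n) h
  rw [PP_of_perp (fun m hm => D.inner_bas_Ayv hm)] at h1
  apply Ayv_notMem D.he D.hA'
  refine Submodule.topologicalClosure_mono ?_ h1
  rw [Submodule.span_le]
  rintro w ⟨v, ⟨z, hz, rfl⟩, rfl⟩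
  rcases hz with ⟨m, hm, rfl⟩ | ⟨k, hk, rfl⟩
  · have h2 : expo (m : ℂ) ∈ H0 D.n := by
      have h3 := bas_mem_H0 hm
      unfold bas at h3
      have h4 : ((1 / Real.sqrt (2 * Real.pi) : ℝ) : ℂ) ≠ 0 := by
        have : (0 : ℝ) < 1 / Real.sqrt (2 * Real.pi) := by positivity
        exact_mod_cast this.ne'
      exact (Submodule.smul_mem_iff _ h4).mp h3
    rw [SetLike.mem_coe, PP_of_mem h2]
    exact Submodule.zero_mem _
  · have h2 : D.x' k ∈ Submodule.span ℂ (D.x' '' {j | ¬ Free j}) :=
      Submodule.subset_span ⟨k, hk, rfl⟩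
    unfold x' at h2
    exact (Submodule.smul_mem_iff _ (D.kap_ne k)).mp h2

lemma lam_inj : Function.Injective D.lam := by
  intro j k hjk
  by_contra hne
  have h1 := inner_psi_x D.he D.hA' k k
  have h2 := inner_psi_x D.he D.hA' k j
  rw [if_pos rfl] at h1
  rw [if_neg hne] at h2
  unfold x' at h1 h2
  rw [inner_smul_right] at h1 h2
  rw [hjk] at h2
  have h3 := (mul_eq_zero.mp h2).resolve_left (D.kap_ne j)
  rw [h3, mul_zero] at h1
  exact zero_ne_one h1

lemma lam_notMem_Z (k : ℕ) : D.lam k ∉ D.Zpart := by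
  rintro ⟨m, _, h⟩
  have h1 := congrArg Complex.im h
  rw [D.lam_im k] at h1
  simp at h1

/-- The final theorem for the data. -/
lemma final (D : Data) {F G : Set ℕ} (hF : F.Infinite) (hG : G.Infinite) (hFG : Disjoint F G)
    (hFf : ∀ k ∈ F, Free k) (hGf : ∀ k ∈ G, Free k) :
    HasInfiniteDefect (D.pts Gᶜ) ∧ ¬ CanBeComplemented (D.pts Gᶜ) := by
  classical
  constructor
  · -- infinite defect
    intro hfin
    have hmem : ∀ k ∈ G, psi D.e D.A k ∈ (Submodule.span ℂ (expo '' D.pts Gᶜ))ᗮ := by
      intro k hk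
      have hzero : ∀ u ∈ expo '' D.pts Gᶜ, inner ℂ (psi D.e D.A k) u = 0 := by
        rintro u ⟨z, hz, rfl⟩
        have hperp : ∀ m : ℤ, m ∉ Set.range D.n → inner ℂ (psi D.e D.A k) (bas m) = 0 := by
          intro m hm
          apply inner_psi_perp D.hAv'
          intro i
          unfold e
          rw [orthonormal_iff_ite.mp bas_orthonormal, if_neg]
          intro h
          exact hm ⟨i, h⟩
        rcases hz with ⟨m, hm, rfl⟩ | ⟨j, hj, rfl⟩
        · have h1 := hperp m hm
          unfold bas at h1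
          rw [inner_smul_right] at h1
          have h4 : ((1 / Real.sqrt (2 * Real.pi) : ℝ) : ℂ) ≠ 0 := by
            have : (0 : ℝ) < 1 / Real.sqrt (2 * Real.pi) := by positivity
            exact_mod_cast this.ne'
          exact (mul_eq_zero.mp h1).resolve_left h4
        · have hjk : j ≠ k := by
            rintro rfl
            exact hj hk
          have h1 := inner_psi_x D.he D.hA' k j
          rw [if_neg hjk] at h1
          unfold x' at h1
          rw [inner_smul_right] at h1
          have h2 := (mul_eq_zero.mp h1).resolve_left (D.kap_ne j)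
          rw [PP_apply, inner_sub_right] at h2
          have h3 : inner ℂ (psi D.e D.A k) ((H0 D.n).starProjection (expo (D.lam j))) = 0 := by
            apply inner_closure_zero (s := bas '' (Set.range D.n)ᶜ) _
              (Submodule.starProjection_apply_mem _ _)
            rintro w ⟨m, hm, rfl⟩
            exact hperp m hm
          rw [h3, sub_zero] at h2
          exact h2
      rw [Submodule.mem_orthogonal']
      intro u hu
      exact inner_closure_zero hzero (Submodule.le_topologicalClosure _ hu)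
    set g : G → ((Submodule.span ℂ (expo '' D.pts Gᶜ))ᗮ : Submodule ℂ L2Pi) :=
      fun k => ⟨psi D.e D.A k, hmem k k.2⟩ with hg
    have hlin : LinearIndependent ℂ g := by
      rw [linearIndependent_iff']
      intro s c hsum k hk
      have h1 : ∑ i ∈ s, c i • psi D.e D.A i = 0 := by
        have h2 := congrArg (fun w : ((Submodule.span ℂ (expo '' D.pts Gᶜ))ᗮ :
          Submodule ℂ L2Pi) => (w : L2Pi)) hsum
        simpa [hg] using h2
      have h2 := congrArg (fun w => inner ℂ w (D.x' k)) h1
      simp only [inner_zero_left] at h2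
      rw [sum_inner] at h2
      have h3 : ∀ i ∈ s, inner ℂ (c i • psi D.e D.A i) (D.x' k) =
          if i = k then (starRingEnd ℂ) (c k) else 0 := by
        intro i _
        rw [inner_smul_left, inner_psi_x D.he D.hA']
        by_cases h : i = k
        · subst h; simp
        · rw [if_neg (fun hh : (k : ℕ) = i => h (Subtype.ext hh.symm)), if_neg h, mul_zero]
      rw [Finset.sum_congr rfl h3, Finset.sum_ite_eq', if_pos hk] at h2
      exact (map_eq_zero _).mp h2
    have hfinG : Finite G := hlin.finite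
    exact hG (Set.toFinite G)
  · -- not complementable
    rintro ⟨M, hM, _, _, g, hbi, hstr⟩
    have hx := hstr (D.A (yv D.e))
    apply D.Ayv_notMem'
    refine Submodule.topologicalClosure_minimal _ ?_ (Submodule.isClosed_topologicalClosure _) hx
    rw [Submodule.span_le]
    rintro w ⟨z, rfl⟩
    rw [SetLike.mem_coe]
    show inner ℂ (g z) (D.A (yv D.e)) • expo (z : ℂ) ∈
      (Submodule.span ℂ (expo '' D.pts {j | ¬ Free j})).topologicalClosure
    by_cases hz : (z : ℂ) ∈ D.pts {j | ¬ Free j}
    · apply Submodule.smul_mem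
      exact Submodule.le_topologicalClosure _ (Submodule.subset_span ⟨_, hz, rfl⟩)
    · have h0 : inner ℂ (g z) (D.A (yv D.e)) = 0 := by
        -- find K such that the point z is not in the pts of the tail
        have hK : ∃ K : ℕ, (z : ℂ) ∉ D.pts ({j | ¬ Free j} ∪ {k | k ∈ F ∧ K < k}) := by
          by_cases hz2 : ∃ k, (z : ℂ) = D.lam k
          · obtain ⟨k, hk⟩ := hz2
            refine ⟨k, ?_⟩
            rintro (h | ⟨j, hj, h⟩)
            · exact hz (Or.inl h)
            · have h1 : j = k := D.lam_inj (h.trans hk)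
              subst h1
              rcases hj with hj | ⟨_, hj⟩
              · exact hz (Or.inr ⟨j, hj, h⟩)
              · exact lt_irrefl _ hj
          · refine ⟨0, ?_⟩
            rintro (h | ⟨j, hj, h⟩)
            · exact hz (Or.inl h)
            · exact hz2 ⟨j, h.symm⟩
        obtain ⟨K, hK⟩ := hK
        have h1 : D.A (yv D.e) ∈ (Submodule.span ℂ (expo ''
            D.pts ({j | ¬ Free j} ∪ {k | k ∈ F ∧ K < k}))).topologicalClosure :=
          D.closure_x'_le (Ayv_mem D.he D.hA' hF hFf K)
        apply inner_closure_zero _ h1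
        rintro w ⟨u, hu, rfl⟩
        have huL : u ∈ D.pts Gᶜ ∪ M := by
          left
          rcases hu with hu | ⟨j, hj, rfl⟩
          · exact Or.inl hu
          · refine Or.inr ⟨j, ?_, rfl⟩
            rcases hj with hj | ⟨hj, _⟩
            · intro hjG
              exact hj (hGf j hjG)
            · intro hjG
              exact Set.disjoint_left.mp hFG hj hjG
        have h2 := hbi.2 ⟨u, huL⟩ z (by
          rintro rfl
          exact hK hu)
        exact h2
      rw [h0, zero_smul]
      exact Submodule.zero_mem _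

end Data

theorem main : ∃ L : Set ℂ, HasInfiniteDefect L ∧ ¬ CanBeComplemented L := by
  obtain ⟨D⟩ := exists_data
  obtain ⟨F, G, hF, hG, hFG, hFf, hGf, _⟩ := exists_odd_even
  exact ⟨_, D.final hF hG hFG hFf hGf⟩

end Pool.Agent.Work.MP_fb65e7_an
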